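import Pool.Agent.Lib.MP_c052b4_al.Mg.G032

/-!
# Coherent trees, F01: the comparison of homology is natural
-/

set_option autoImplicit false
set_option linter.unusedVariables false
set_option linter.unusedSectionVars false

namespace Pool.Agent.Lib.MP_c052b4_al.CT

open CategoryTheory Opposite Limits
open Pool.Agent.Lib.MP_c052b4_al.MT

universe u

variable {R : Type u} [Ring R] {G : Type u} [Group G] {L : Lbl G}

/-- The comparison morphism on homology. -/
noncomputable def lamH (Y : KV (Polynomial R) L) (q : ℤ) :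
    (HH (Polynomial R) L q).obj Y ⟶
      (rho L (lz R)).obj ((HH (LaurentPolynomial R) L q).obj ((kR L (lz R)).obj Y)) :=
  let K : CochainComplex (VCat (Polynomial R) L) ℤ := Y.as
  let K' : CochainComplex (VCat (LaurentPolynomial R) L) ℤ :=
    ((VCat.bc (lz R)).mapHomologicalComplex (ComplexShape.up ℤ)).obj K
  let E : CochainComplex (AA (LaurentPolynomial R) L) ℤ := (evC (LaurentPolynomial R) L).obj K'
  let i1 : (HH (Polynomial R) L q).obj Y ≅ ((evC (Polynomial R) L).obj K).homology q := HHiso K q
  let i2 : (HH (LaurentPolynomial R) L q).obj ((kR L (lz R)).obj Y) ≅ E.homology q := HHiso K' q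
  let i3 : (((rho L (lz R)).mapHomologicalComplex (ComplexShape.up ℤ)).obj E).homology q ≅
      (rho L (lz R)).obj (E.homology q) := (E.sc q).mapHomologyIso (rho L (lz R))
  i1.hom ≫ HomologicalComplex.homologyMap (lamC K) q ≫ i3.hom ≫ (rho L (lz R)).map i2.inv

/-- It is an isomorphism modulo torsion (end of the proof of `exists_lamH`). -/
theorem lamH_isoMod (Y : KV (Polynomial R) L) (q : ℤ) :
    (Tors L (Polynomial.X : Polynomial R)).isoModSerre (lamH Y q) := by
  let K : CochainComplex (VCat (Polynomial R) L) ℤ := Y.as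
  let K' : CochainComplex (VCat (LaurentPolynomial R) L) ℤ :=
    ((VCat.bc (lz R)).mapHomologicalComplex (ComplexShape.up ℤ)).obj K
  let E : CochainComplex (AA (LaurentPolynomial R) L) ℤ := (evC (LaurentPolynomial R) L).obj K'
  let i1 : (HH (Polynomial R) L q).obj Y ≅ ((evC (Polynomial R) L).obj K).homology q := HHiso K q
  let i2 : (HH (LaurentPolynomial R) L q).obj ((kR L (lz R)).obj Y) ≅ E.homology q := HHiso K' q
  let i3 : (((rho L (lz R)).mapHomologicalComplex (ComplexShape.up ℤ)).obj E).homology q ≅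
      (rho L (lz R)).obj (E.homology q) := (E.sc q).mapHomologyIso (rho L (lz R))
  change (Tors L (Polynomial.X : Polynomial R)).isoModSerre
    (i1.hom ≫ HomologicalComplex.homologyMap (lamC K) q ≫ i3.hom ≫ (rho L (lz R)).map i2.inv)
  refine MorphismProperty.comp_mem _ _ _
    ((Tors L (Polynomial.X : Polynomial R)).isoModSerre_of_isIso _) ?_
  refine MorphismProperty.comp_mem _ _ _ (lamC_homology K q) ?_
  exact (Tors L (Polynomial.X : Polynomial R)).isoModSerre_of_isIso _

/-- `HHiso` is natural. -/
private theorem f01_HHiso {S : Type u} [Ring S] {K K' : CochainComplex (VCat S L) ℤ} (g : K ⟶ K')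
    (q : ℤ) : (HH S L q).map ((HomotopyCategory.quotient _ _).map g) ≫ (HHiso K' q).hom =
      (HHiso K q).hom ≫ HomologicalComplex.homologyMap ((evC S L).map g) q :=
  (DerivedCategory.homologyFunctorFactors (AA S L) q).hom.naturality ((evC S L).map g)

private theorem f01_HHiso' {S : Type u} [Ring S] {K K' : CochainComplex (VCat S L) ℤ} (g : K ⟶ K')
    (q : ℤ) : HomologicalComplex.homologyMap ((evC S L).map g) q ≫ (HHiso K' q).inv =
      (HHiso K q).inv ≫ (HH S L q).map ((HomotopyCategory.quotient _ _).map g) := by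
  rw [Iso.comp_inv_eq, Category.assoc, f01_HHiso, Iso.inv_hom_id_assoc]

private theorem f01_lamC {K K' : CochainComplex (VCat (Polynomial R) L) ℤ} (g : K ⟶ K') :
    (evC (Polynomial R) L).map g ≫ lamC K' = lamC K ≫
      ((rho L (lz R)).mapHomologicalComplex (ComplexShape.up ℤ)).map
        ((evC (LaurentPolynomial R) L).map
          (((VCat.bc (lz R)).mapHomologicalComplex (ComplexShape.up ℤ)).map g)) := by
  ext1 n
  exact (lam L (lz R)).naturality (g.f n)

private theorem f01_rho {A B : CochainComplex (AA (LaurentPolynomial R) L) ℤ} (f : A ⟶ B) (q : ℤ) :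
    HomologicalComplex.homologyMap
      (((rho L (lz R)).mapHomologicalComplex (ComplexShape.up ℤ)).map f) q ≫
        ((B.sc q).mapHomologyIso (rho L (lz R))).hom =
      ((A.sc q).mapHomologyIso (rho L (lz R))).hom ≫
        (rho L (lz R)).map (HomologicalComplex.homologyMap f q) :=
  ShortComplex.mapHomologyIso_hom_naturality
    ((HomologicalComplex.shortComplexFunctor _ (ComplexShape.up ℤ) q).map f) (rho L (lz R))

private theorem f01_abs {C : Type*} [Category C] {A A' B B' X X' D D' E E' : C} {a : A ⟶ A'}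
    {i : A ⟶ B} {i' : A' ⟶ B'} {b : B ⟶ B'} {l : B ⟶ X} {l' : B' ⟶ X'} {c : X ⟶ X'} {m : X ⟶ D}
    {m' : X' ⟶ D'} {d : D ⟶ D'} {n : D ⟶ E} {n' : D' ⟶ E'} {e : E ⟶ E'} (h1 : a ≫ i' = i ≫ b)
    (h2 : b ≫ l' = l ≫ c) (h3 : c ≫ m' = m ≫ d) (h4 : d ≫ n' = n ≫ e) :
    a ≫ i' ≫ l' ≫ m' ≫ n' = (i ≫ l ≫ m ≫ n) ≫ e := by
  simp only [Category.assoc]
  rw [← h4, ← reassoc_of% h3, ← reassoc_of% h2, reassoc_of% h1]

private theorem f01_def (K : CochainComplex (VCat (Polynomial R) L) ℤ) (q : ℤ) :
    lamH ((HomotopyCategory.quotient _ _).obj K) q =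
      (HHiso K q).hom ≫ HomologicalComplex.homologyMap (lamC K) q ≫
      ((((evC (LaurentPolynomial R) L).obj
        (((VCat.bc (lz R)).mapHomologicalComplex (ComplexShape.up ℤ)).obj K)).sc
          q).mapHomologyIso (rho L (lz R))).hom ≫
        (rho L (lz R)).map
          (HHiso (((VCat.bc (lz R)).mapHomologicalComplex (ComplexShape.up ℤ)).obj K) q).inv := rfl

private theorem f01_nat {K K' : CochainComplex (VCat (Polynomial R) L) ℤ} (g : K ⟶ K') (q : ℤ) :
    (HH (Polynomial R) L q).map ((HomotopyCategory.quotient _ _).map g) ≫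
      lamH ((HomotopyCategory.quotient _ _).obj K') q =
      lamH ((HomotopyCategory.quotient _ _).obj K) q ≫ (rho L (lz R)).map
        ((HH (LaurentPolynomial R) L q).map ((HomotopyCategory.quotient _ _).map
          (((VCat.bc (lz R)).mapHomologicalComplex (ComplexShape.up ℤ)).map g))) := by
  have h1 := f01_HHiso g q
  have h2 := congrArg (fun t => HomologicalComplex.homologyMap t q) (f01_lamC g)
  simp only [HomologicalComplex.homologyMap_comp] at h2
  have h3 := f01_rho ((evC (LaurentPolynomial R) L).map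
    (((VCat.bc (lz R)).mapHomologicalComplex (ComplexShape.up ℤ)).map g)) q
  have h4 := congrArg (fun t => (rho L (lz R)).map t)
    (f01_HHiso' (((VCat.bc (lz R)).mapHomologicalComplex (ComplexShape.up ℤ)).map g) q)
  simp only [Functor.map_comp] at h4
  rw [f01_def, f01_def]
  exact f01_abs h1 h2 h3 h4

/-- It is natural.
Proof: `g = quotient.map g'` with `g' : Y.as ⟶ Y'.as` (`HomotopyCategory.quotient` is full). All four
factors of `lamH` are natural in the complex: `DerivedCategory.homologyFunctorFactors` (a natural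
isomorphism, for `HHiso`), `lamC` (degreewise `(lam L (lz R)).naturality`), `mapHomologyIso`
(`ShortComplex.mapHomologyIso_hom_naturality`, see `f04c_rho` in T/F04c). -/
theorem lamH_nat {Y Y' : KV (Polynomial R) L} (g : Y ⟶ Y') (q : ℤ) :
    (HH (Polynomial R) L q).map g ≫ lamH Y' q =
      lamH Y q ≫ (rho L (lz R)).map ((HH (LaurentPolynomial R) L q).map ((kR L (lz R)).map g)) := by
  obtain ⟨g', rfl⟩ := (HomotopyCategory.quotient (VCat (Polynomial R) L)
    (ComplexShape.up ℤ)).map_surjective (X := Y.as) (Y := Y'.as) g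
  exact f01_nat g' q

end Pool.Agent.Lib.MP_c052b4_al.CT
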