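import Pool.Agent.Lib.MP_c052b4_al.Mg.G065

/-!
# Coherent trees, N07: embedding into integral matrices
-/

set_option autoImplicit false
set_option linter.unusedVariables false
set_option linter.unusedSectionVars false

namespace Pool.Agent.Lib.MP_c052b4_al.CT

open Matrix

universe u

private theorem n07_bas {K : Type*} [Field K] {H : Type*} [Group H] (ρ : H →* GL (Fin 2) K)
    (a b : H) (i : Fin 4) :
    bas (ρ a : Matrix (Fin 2) (Fin 2) K) (ρ b) i =
      (ρ ((![1, a, b, a * b] : Fin 4 → H) i) : Matrix (Fin 2) (Fin 2) K) := by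
  fin_cases i
  · change 1 = ((ρ 1 : GL (Fin 2) K) : Matrix (Fin 2) (Fin 2) K)
    rw [map_one]
    rfl
  · rfl
  · rfl
  · change _ = ((ρ (a * b) : GL (Fin 2) K) : Matrix (Fin 2) (Fin 2) K)
    rw [map_mul]
    rfl

private theorem n07_det {K : Type*} [Field K] {H : Type*} [Group H] (ρ : H →* GL (Fin 2) K)
    (a b : H) : ((ρ a : Matrix (Fin 2) (Fin 2) K) * ρ b - ρ b * ρ a).det =
      (ρ (a * a * (b * b)) : Matrix (Fin 2) (Fin 2) K).trace -
        (ρ (a * b * (a * b)) : Matrix (Fin 2) (Fin 2) K).trace := by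
  rw [det_comm_eq]
  simp only [map_mul, Units.val_mul]

/-- **Torsionfree groups of matrices with integral traces and determinants over a field with a rational
place are commutative or embed into `GL₂(ℤ)`.**
Proof: let `O`, `π` be as in `exists_local_place` and `a * b ≠ b * a`. `det_comm_ne_zero`, `exists_denom` for
`g = s a`, `h = s b` (each `bas i` is `s z` with `z ∈ {1, a, b, a b}`, so the traces of products are
traces of elements, integers by `exists_tr`), so `D` and `hD`; `exists_lattice_O`, `exists_reduction`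
(with `ι = Fin 4`, `z = ![1, a, b, a * b]`), `injective_of_trace`. The determinant of
`σ a σ b - σ b σ a` is not zero: by `det_comm_eq` it is the integer
`tr(a a b b) - tr(a b a b)`, the same for `s` and `σ` (`Int.cast_injective`, `CharZero F`). Now
`exists_lattice_Z`, `exists_hom_Z`. -/
theorem comm_or_embed {F : Type u} [Field F] (hF : RatPlace F) {H : Type u} [Group H]
    (htf : ∀ h : H, IsOfFinOrder h → h = 1) (s : H →* GL (Fin 2) F) (hs : Function.Injective s)
    (htr : ∀ h : H, IsIntegral ℤ ((s h : Matrix (Fin 2) (Fin 2) F).trace))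
    (hdet : ∀ h : H, IsIntegral ℤ ((s h : Matrix (Fin 2) (Fin 2) F).det)) :
    (∀ a b : H, a * b = b * a) ∨ ∃ τ : H →* GL (Fin 2) ℤ, Function.Injective τ := by
  obtain ⟨O, π, hO⟩ := exists_local_place hF
  have hch := charZero_of_place π
  by_cases hcomm : ∀ a b : H, a * b = b * a
  · exact Or.inl hcomm
  push Not at hcomm
  obtain ⟨a, b, hab⟩ := hcomm
  right
  have h0 := det_comm_ne_zero π htf s hs htr hdet a b hab
  have htrZ := exists_tr π s htr
  have hbs := n07_bas s a b
  obtain ⟨D, hD0, hD⟩ := exists_denom _ _ h0 fun i j => by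
    rw [hbs, hbs, ← Units.val_mul, ← map_mul]
    exact htrZ _
  have hD' : ∀ h : H, ∃ c : Fin 4 → ℤ, (D : F) • (s h : Matrix (Fin 2) (Fin 2) F) =
      ∑ i, (c i : F) • bas (s a : Matrix (Fin 2) (Fin 2) F) (s b) i := fun h =>
    hD _ fun j => by
      rw [hbs, ← Units.val_mul, ← map_mul]
      exact htrZ _
  obtain ⟨P, hP⟩ := exists_lattice_O π hO s a b h0 hD0 hD'
  obtain ⟨σ, hσ1, hσ2⟩ := exists_reduction π s P hP
  have hσi := injective_of_trace s hs htrZ a b h0 σ hσ1
  have h0' : ((σ a : Matrix (Fin 2) (Fin 2) ℚ) * σ b - σ b * σ a).det ≠ 0 := by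
    obtain ⟨n₁, h1⟩ := htrZ (a * a * (b * b))
    obtain ⟨n₂, h2⟩ := htrZ (a * b * (a * b))
    rw [n07_det, h1, h2] at h0
    rw [n07_det, hσ1 _ _ h1, hσ1 _ _ h2]
    intro h3
    apply h0
    have h4 : n₁ = n₂ := by exact_mod_cast sub_eq_zero.1 h3
    rw [h4, sub_self]
  have hDσ : ∀ h : H, ∃ c : Fin 4 → ℤ, (D : ℚ) • (σ h : Matrix (Fin 2) (Fin 2) ℚ) =
      ∑ i, (c i : ℚ) • bas (σ a : Matrix (Fin 2) (Fin 2) ℚ) (σ b) i := by
    intro h
    obtain ⟨c, hc⟩ := hD' h
    refine ⟨c, ?_⟩
    have h1 := hσ2 h (Fin 4) D c ![1, a, b, a * b] (by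
      rw [hc]
      exact Finset.sum_congr rfl fun i _ => by rw [hbs])
    rw [h1]
    exact Finset.sum_congr rfl fun i _ => by rw [n07_bas σ a b]
  obtain ⟨P', hP'⟩ := exists_lattice_Z σ a b h0' hD0 hDσ
  exact exists_hom_Z σ hσi P' hP'

end Pool.Agent.Lib.MP_c052b4_al.CT
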