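import Pool.Agent.Lib.MP_c052b4_al.Mg.G002
import Pool.Agent.Lib.MP_c052b4_al.Mg.G012

/-!
# Coherent trees, X01: groups of affine automorphisms
-/

set_option autoImplicit false
set_option linter.unusedVariables false
set_option linter.unusedSectionVars false

namespace Pool.Agent.Lib.MP_c052b4_al.CT

open Matrix MvPolynomial
open Pool.Agent.Lib.MP_c052b4_al.JK

universe u

private theorem x01_coeff_X (r v : Fin 2) {K : Type u} [Field K] :
    coeff (Finsupp.single r 1) (X v : A2 K) = if r = v then 1 else 0 := by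
  classical
  rw [MvPolynomial.coeff_X]
  by_cases h : r = v
  · rw [h, if_pos rfl, if_pos rfl]
  · rw [if_neg h, if_neg]
    intro h1
    exact h ((Finsupp.single_left_inj one_ne_zero).1 h1).symm

private theorem x01_coeff_C {K : Type u} [Field K] (r : Fin 2) (c : K) :
    coeff (Finsupp.single r 1) (C c : A2 K) = 0 := by
  classical
  rw [coeff_C, if_neg]
  intro h
  exact one_ne_zero (Finsupp.single_eq_zero.1 h.symm)

private theorem x01_coeff {K : Type u} [Field K] (a b c : K) (r : Fin 2) :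
    coeff (Finsupp.single r 1) (C a * X 0 + C b * X 1 + C c : A2 K) = ![a, b] r := by
  rw [coeff_add, coeff_add, coeff_C_mul, coeff_C_mul, x01_coeff_X, x01_coeff_X, x01_coeff_C]
  fin_cases r <;> simp

private theorem x01_X0 {K : Type u} [Field K] (σ : AutA K) (hσ : σ ∈ Aff K) (v : Fin 2) :
    ∃ c : K, σ (X v) = C (linMat σ 0 v) * X 0 + C (linMat σ 1 v) * X 1 + C c := by
  obtain ⟨a₀, b₀, c₀, a₁, b₁, c₁, h0, h1, -⟩ := Aff_X hσ
  fin_cases v
  · refine ⟨c₀, ?_⟩
    have e0 : linMat σ 0 0 = a₀ := by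
      show coeff (Finsupp.single 0 1) (σ (X 0)) = a₀
      rw [h0, x01_coeff]
      rfl
    have e1 : linMat σ 1 0 = b₀ := by
      show coeff (Finsupp.single 1 1) (σ (X 0)) = b₀
      rw [h0, x01_coeff]
      rfl
    show σ (X 0) = C (linMat σ 0 0) * X 0 + C (linMat σ 1 0) * X 1 + C c₀
    rw [e0, e1, h0]
  · refine ⟨c₁, ?_⟩
    have e0 : linMat σ 0 1 = a₁ := by
      show coeff (Finsupp.single 0 1) (σ (X 1)) = a₁
      rw [h1, x01_coeff]
      rfl
    have e1 : linMat σ 1 1 = b₁ := by
      show coeff (Finsupp.single 1 1) (σ (X 1)) = b₁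
      rw [h1, x01_coeff]
      rfl
    show σ (X 1) = C (linMat σ 0 1) * X 0 + C (linMat σ 1 1) * X 1 + C c₁
    rw [e0, e1, h1]

private theorem x01_X {K : Type u} [Field K] (σ : AutA K) (hσ : σ ∈ Aff K) (v : Fin 2) :
    σ (X v) = C (linMat σ 0 v) * X 0 + C (linMat σ 1 v) * X 1 + C (constantCoeff (σ (X v))) := by
  obtain ⟨c, hc⟩ := x01_X0 σ hσ v
  have h1 : constantCoeff (σ (X v)) = c := by
    rw [hc, map_add, map_add, map_mul, map_mul, constantCoeff_C, constantCoeff_C, constantCoeff_C,
      constantCoeff_X, constantCoeff_X, mul_zero, mul_zero, zero_add, zero_add]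
  rw [h1]
  exact hc

/-- A group of affine automorphisms: linear part and translation part, faithful. -/
structure AffData (K : Type u) [Field K] (G : Type u) [Group G] where
  L : G →* GL (Fin 2) K
  w : G → (Fin 2 → K)
  w_mul : ∀ a b, w (a * b) = w a ᵥ* (L b : Matrix (Fin 2) (Fin 2) K) + w b
  faithful : ∀ g, L g = 1 → w g = 0 → g = 1

/-- Proof: `L g = linMat (r g)` (`linMat_mul`, `linMat_one`, `MonoidHom.toHomUnits`);
`r g (X v) = ∑ s, C (linMat (r g) s v) * X s + C (w g v)` (`linmat_X` of JK/LinMat.lean, private: copy);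
`r (a b) (X v) = r a (r b (X v))`. Faithful: `aut_ext`. -/
theorem exists_affData {K : Type u} [Field K] {G : Type u} [Group G] (r : G →* AutA K)
    (hr : Function.Injective r) (hA : ∀ g, r g ∈ Aff K) :
    ∃ D : AffData K G, ∀ g, (D.L g : Matrix (Fin 2) (Fin 2) K) = linMat (r g) := by
  let M : G →* Matrix (Fin 2) (Fin 2) K :=
    { toFun := fun g => linMat (r g)
      map_one' := by rw [map_one, linMat_one]
      map_mul' := fun a b => by rw [map_mul, linMat_mul _ _ (hA a) (hA b)] }
  refine ⟨{ L := MonoidHom.toHomUnits M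
            w := fun g v => constantCoeff (r g (X v))
            w_mul := fun a b => ?_
            faithful := fun g hL hw => ?_ }, fun g => ?_⟩
  · funext v
    have h1 : ((MonoidHom.toHomUnits M b : GL (Fin 2) K) : Matrix (Fin 2) (Fin 2) K) =
        linMat (r b) := MonoidHom.coe_toHomUnits M b
    show constantCoeff (r (a * b) (X v)) = _
    rw [Pi.add_apply, h1, vecMul, dotProduct, Fin.sum_univ_two, map_mul]
    show constantCoeff (r a (r b (X v))) = constantCoeff (r a (X 0)) * linMat (r b) 0 v +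
      constantCoeff (r a (X 1)) * linMat (r b) 1 v + constantCoeff (r b (X v))
    have h2 : r a (r b (X v)) = C (linMat (r b) 0 v) * r a (X 0) + C (linMat (r b) 1 v) * r a (X 1) +
        C (constantCoeff (r b (X v))) := by
      conv_lhs => rw [x01_X (r b) (hA b) v]
      rw [map_add (r a), map_add (r a), map_mul (r a), map_mul (r a), aut_C, aut_C, aut_C]
    rw [h2, map_add, map_add, map_mul, map_mul, constantCoeff_C, constantCoeff_C, constantCoeff_C]
    ring
  · have h1 : linMat (r g) = 1 := by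
      have h2 : ((MonoidHom.toHomUnits M g : GL (Fin 2) K) : Matrix (Fin 2) (Fin 2) K) =
        linMat (r g) := MonoidHom.coe_toHomUnits M g
      rw [← h2, hL]
      rfl
    apply hr
    rw [map_one]
    refine aut_ext fun v => ?_
    have h3 : constantCoeff (r g (X v)) = 0 := congrFun hw v
    rw [x01_X (r g) (hA g) v, h1, h3]
    fin_cases v
    · show C ((1 : Matrix (Fin 2) (Fin 2) K) 0 0) * X 0 +
        C ((1 : Matrix (Fin 2) (Fin 2) K) 1 0) * X 1 + C 0 = X 0
      rw [Matrix.one_apply_eq, Matrix.one_apply_ne (by decide), C_0, C_1, zero_mul, one_mul,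
        add_zero, add_zero]
    · show C ((1 : Matrix (Fin 2) (Fin 2) K) 0 1) * X 0 +
        C ((1 : Matrix (Fin 2) (Fin 2) K) 1 1) * X 1 + C 0 = X 1
      rw [Matrix.one_apply_eq, Matrix.one_apply_ne (by decide), C_0, C_1, zero_mul, one_mul,
        add_zero, zero_add]
  · exact MonoidHom.coe_toHomUnits M g

/-- **A common eigenvector of the linear parts.**
Proof: let `f = C (v 0) * X 0 + C (v 1) * X 1`. `r g f = C b * f + const`
(`r g (X s) = ∑ t, C (linMat (r g) t s) * X t + const`). There is an affine automorphism `s` with `s (X 1) = f`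
(`mkAut`: the other variable goes to `X 0` if `v 1 ≠ 0` and to `X 1` otherwise). Then
`(s⁻¹ * r g * s) (X 1) = s⁻¹ (C b * f + const) = C b * X 1 + const`: `mem_Tri_of`. -/
theorem tri_of_eigen {K : Type u} [Field K] {G : Type u} [Group G] (r : G →* AutA K)
    (hA : ∀ g, r g ∈ Aff K) (v : Fin 2 → K) (hv : v ≠ 0)
    (h : ∀ g, ∃ b : K, (linMat (r g)) *ᵥ v = b • v) :
    ∃ s : AutA K, ∀ g, s⁻¹ * r g * s ∈ Tri K := by
  have hv' : v 0 ≠ 0 ∨ v 1 ≠ 0 := by
    by_contra hcon
    push Not at hcon
    apply hv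
    funext i
    fin_cases i
    · exact hcon.1
    · exact hcon.2
  obtain ⟨s, -, hs⟩ := exists_Aff_X1 (v 0) (v 1) 0 hv'
  refine ⟨s, fun g => ?_⟩
  obtain ⟨b, hb⟩ := h g
  have hb0 : linMat (r g) 0 0 * v 0 + linMat (r g) 0 1 * v 1 = b * v 0 := by
    have := congrFun hb 0
    rw [mulVec, dotProduct, Fin.sum_univ_two, Pi.smul_apply, smul_eq_mul] at this
    exact this
  have hb1 : linMat (r g) 1 0 * v 0 + linMat (r g) 1 1 * v 1 = b * v 1 := by
    have := congrFun hb 1
    rw [mulVec, dotProduct, Fin.sum_univ_two, Pi.smul_apply, smul_eq_mul] at this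
    exact this
  have hinv : s⁻¹ (s (X 1)) = X 1 := by
    show (s⁻¹ * s) (X 1) = X 1
    rw [inv_mul_cancel]
    rfl
  have key : r g (s (X 1)) = C b * s (X 1) +
      C (v 0 * constantCoeff (r g (X 0)) + v 1 * constantCoeff (r g (X 1))) := by
    rw [hs, map_add, map_add, map_mul, map_mul, aut_C, aut_C, aut_C]
    have e0 := congrArg (C : K → A2 K) hb0
    have e1 := congrArg (C : K → A2 K) hb1
    simp only [C_add, C_mul] at e0 e1
    have h0 := x01_X (r g) (hA g) 0
    have h1 := x01_X (r g) (hA g) 1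
    simp only [C_add, C_mul, C_0]
    linear_combination C (v 0) * h0 + C (v 1) * h1 + X 0 * e0 + X 1 * e1
  refine mem_Tri_of (c := b) (d := v 0 * constantCoeff (r g (X 0)) + v 1 * constantCoeff (r g (X 1))) ?_
  show s⁻¹ (r g (s (X 1))) = _
  rw [key, map_add, map_mul, aut_C, aut_C, hinv]

end Pool.Agent.Lib.MP_c052b4_al.CT
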