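import Pool.Agent.Lib.MP_c052b4_al.Mg.G060

/-!
# Coherent trees, X05: linear groups of rank two: irreducible, commutative or with an eigenvector
-/

set_option autoImplicit false
set_option linter.unusedVariables false
set_option linter.unusedSectionVars false

namespace Pool.Agent.Lib.MP_c052b4_al.CT

open Matrix

universe u

private theorem x05_par {F : Type u} [Field F] (v w : Fin 2 → F) (hv : v ≠ 0)
    (h : v 0 * w 1 - v 1 * w 0 = 0) : ∃ a : F, w = a • v := by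
  by_cases h0 : v 0 = 0
  · have h1 : v 1 ≠ 0 := by
      intro h1
      apply hv
      funext i
      match i with
      | 0 => exact h0
      | 1 => exact h1
    refine ⟨w 1 / v 1, ?_⟩
    have h2 : w 0 = 0 := by
      have h3 : v 1 * w 0 = 0 := by rw [h0] at h; linear_combination -h
      exact (mul_eq_zero.1 h3).resolve_left h1
    funext i
    match i with
    | 0 =>
      change w 0 = w 1 / v 1 * v 0
      rw [h2, h0, mul_zero]
    | 1 =>
      change w 1 = w 1 / v 1 * v 1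
      rw [div_mul_cancel₀ _ h1]
  · refine ⟨w 0 / v 0, ?_⟩
    funext i
    match i with
    | 0 =>
      change w 0 = w 0 / v 0 * v 0
      rw [div_mul_cancel₀ _ h0]
    | 1 =>
      change w 1 = w 0 / v 0 * v 1
      field_simp
      linear_combination h

private theorem x05_zero {F : Type u} [Field F] (X : Matrix (Fin 2) (Fin 2) F) (v w : Fin 2 → F)
    (h : v 0 * w 1 - v 1 * w 0 ≠ 0) (h1 : X *ᵥ v = 0) (h2 : X *ᵥ w = 0) : X = 0 := by
  have a0 := congrFun h1 0
  have a1 := congrFun h1 1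
  have b0 := congrFun h2 0
  have b1 := congrFun h2 1
  simp only [Matrix.mulVec, dotProduct, Fin.sum_univ_two, Pi.zero_apply] at a0 a1 b0 b1
  have e00 : X 0 0 = 0 := by
    have : X 0 0 * (v 0 * w 1 - v 1 * w 0) = 0 := by linear_combination w 1 * a0 - v 1 * b0
    exact (mul_eq_zero.1 this).resolve_right h
  have e01 : X 0 1 = 0 := by
    have : X 0 1 * (v 0 * w 1 - v 1 * w 0) = 0 := by linear_combination v 0 * b0 - w 0 * a0
    exact (mul_eq_zero.1 this).resolve_right h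
  have e10 : X 1 0 = 0 := by
    have : X 1 0 * (v 0 * w 1 - v 1 * w 0) = 0 := by linear_combination w 1 * a1 - v 1 * b1
    exact (mul_eq_zero.1 this).resolve_right h
  have e11 : X 1 1 = 0 := by
    have : X 1 1 * (v 0 * w 1 - v 1 * w 0) = 0 := by linear_combination v 0 * b1 - w 0 * a1
    exact (mul_eq_zero.1 this).resolve_right h
  ext i j
  match i, j with
  | 0, 0 => exact e00
  | 0, 1 => exact e01
  | 1, 0 => exact e10
  | 1, 1 => exact e11

private theorem x05_scalar {F : Type u} [Field F] (X : Matrix (Fin 2) (Fin 2) F) (v w : Fin 2 → F)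
    (h : v 0 * w 1 - v 1 * w 0 ≠ 0) (c : F) (h1 : X *ᵥ v = c • v) (h2 : X *ᵥ w = c • w) :
    X = c • (1 : Matrix (Fin 2) (Fin 2) F) := by
  rw [← sub_eq_zero]
  refine x05_zero _ v w h ?_ ?_
  · rw [Matrix.sub_mulVec, Matrix.smul_mulVec, Matrix.one_mulVec, h1, sub_self]
  · rw [Matrix.sub_mulVec, Matrix.smul_mulVec, Matrix.one_mulVec, h2, sub_self]

private theorem x05_comm {F : Type u} [Field F] (X Y : Matrix (Fin 2) (Fin 2) F)
    (v w : Fin 2 → F) (h : v 0 * w 1 - v 1 * w 0 ≠ 0) (a b c d : F) (h1 : X *ᵥ v = a • v)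
    (h2 : X *ᵥ w = b • w) (h3 : Y *ᵥ v = c • v) (h4 : Y *ᵥ w = d • w) : X * Y = Y * X := by
  rw [← sub_eq_zero]
  refine x05_zero _ v w h ?_ ?_
  · rw [Matrix.sub_mulVec, ← Matrix.mulVec_mulVec, ← Matrix.mulVec_mulVec, h1, h3,
      Matrix.mulVec_smul, Matrix.mulVec_smul, h1, h3, smul_smul, smul_smul, mul_comm, sub_self]
  · rw [Matrix.sub_mulVec, ← Matrix.mulVec_mulVec, ← Matrix.mulVec_mulVec, h2, h4,
      Matrix.mulVec_smul, Matrix.mulVec_smul, h2, h4, smul_smul, smul_smul, mul_comm, sub_self]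

/-- A matrix with the eigenvector `v` which commutes with a matrix without the eigenvector `v` is
scalar. -/
private theorem x05_sc {F : Type u} [Field F] (X Z : Matrix (Fin 2) (Fin 2) F) (v : Fin 2 → F)
    (hv : v ≠ 0) (c : F) (h1 : X *ᵥ v = c • v) (hZ : ∀ d : F, Z *ᵥ v ≠ d • v)
    (hc : X * Z = Z * X) : X = c • (1 : Matrix (Fin 2) (Fin 2) F) := by
  refine x05_scalar X v (Z *ᵥ v) ?_ c h1 ?_
  · intro h
    obtain ⟨a, ha⟩ := x05_par v (Z *ᵥ v) hv h
    exact hZ a ha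
  · rw [Matrix.mulVec_mulVec, hc, ← Matrix.mulVec_mulVec, h1, Matrix.mulVec_smul]

private theorem x05_ne {F : Type u} [Field F] (Z : Matrix (Fin 2) (Fin 2) F) (v w : Fin 2 → F)
    (hv : v ≠ 0) (hw : w ≠ 0) (c : F) (h1 : Z *ᵥ w = c • w) (hZ : ∀ d : F, Z *ᵥ v ≠ d • v) :
    v 0 * w 1 - v 1 * w 0 ≠ 0 := by
  intro h
  obtain ⟨a, ha⟩ := x05_par v w hv h
  have ha0 : a ≠ 0 := by
    rintro rfl
    apply hw
    rw [ha, zero_smul]
  apply hZ c
  have h2 : v = a⁻¹ • w := by rw [ha, smul_smul, inv_mul_cancel₀ ha0, one_smul]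
  rw [h2, Matrix.mulVec_smul, h1, smul_comm]

private theorem x05_decomp {F : Type u} [Field F] (v w : Fin 2 → F)
    (h : v 0 * w 1 - v 1 * w 0 ≠ 0) (u : Fin 2 → F) : ∃ x y : F, u = x • v + y • w := by
  refine ⟨(u 0 * w 1 - u 1 * w 0) / (v 0 * w 1 - v 1 * w 0),
    (v 0 * u 1 - v 1 * u 0) / (v 0 * w 1 - v 1 * w 0), ?_⟩
  funext i
  match i with
  | 0 =>
    change u 0 = (u 0 * w 1 - u 1 * w 0) / (v 0 * w 1 - v 1 * w 0) * v 0 +
      (v 0 * u 1 - v 1 * u 0) / (v 0 * w 1 - v 1 * w 0) * w 0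
    rw [div_mul_eq_mul_div, div_mul_eq_mul_div, ← add_div, eq_div_iff h]
    ring
  | 1 =>
    change u 1 = (u 0 * w 1 - u 1 * w 0) / (v 0 * w 1 - v 1 * w 0) * v 1 +
      (v 0 * u 1 - v 1 * u 0) / (v 0 * w 1 - v 1 * w 0) * w 1
    rw [div_mul_eq_mul_div, div_mul_eq_mul_div, ← add_div, eq_div_iff h]
    ring

private theorem x05_gl {F : Type u} [Field F] (X : GL (Fin 2) F) (v : Fin 2 → F) (hv : v ≠ 0)
    (c : F) (h : (X : Matrix (Fin 2) (Fin 2) F) *ᵥ v = c • v) : c ≠ 0 := by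
  rintro rfl
  rw [zero_smul] at h
  apply hv
  have h2 : ((X⁻¹ : GL (Fin 2) F) : Matrix (Fin 2) (Fin 2) F) *ᵥ
      ((X : Matrix (Fin 2) (Fin 2) F) *ᵥ v) = v := by
    rw [Matrix.mulVec_mulVec, ← Units.val_mul, inv_mul_cancel, Units.val_one, Matrix.one_mulVec]
  rw [← h2, h, Matrix.mulVec_zero]

private theorem x05_inv {F : Type u} [Field F] (X : GL (Fin 2) F) (v w : Fin 2 → F)
    (c d : F) (hc : c ≠ 0) (h : (X : Matrix (Fin 2) (Fin 2) F) *ᵥ v = c • v)
    (h1 : (X : Matrix (Fin 2) (Fin 2) F) *ᵥ w = d • v) : w = (c⁻¹ * d) • v := by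
  have h2 : ((X⁻¹ : GL (Fin 2) F) : Matrix (Fin 2) (Fin 2) F) *ᵥ
      ((X : Matrix (Fin 2) (Fin 2) F) *ᵥ w) = w := by
    rw [Matrix.mulVec_mulVec, ← Units.val_mul, inv_mul_cancel, Units.val_one, Matrix.one_mulVec]
  have h3 : ((X⁻¹ : GL (Fin 2) F) : Matrix (Fin 2) (Fin 2) F) *ᵥ
      ((X : Matrix (Fin 2) (Fin 2) F) *ᵥ v) = v := by
    rw [Matrix.mulVec_mulVec, ← Units.val_mul, inv_mul_cancel, Units.val_one, Matrix.one_mulVec]
  rw [h, Matrix.mulVec_smul] at h3
  rw [h1, Matrix.mulVec_smul] at h2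
  have h4 : ((X⁻¹ : GL (Fin 2) F) : Matrix (Fin 2) (Fin 2) F) *ᵥ v = c⁻¹ • v := by
    rw [← h3, smul_smul, inv_mul_cancel₀ hc, one_smul, h3]
  rw [← h2, h4, smul_smul, mul_comm]

/-- **Pairwise reducible groups are reducible.**
Proof. Assume that all commutators `L a * L b - L b * L a` have determinant zero, and that `L a`, `L b` do not
commute. Let `v` be a common eigenvector (`exists_eigen`, N02). Claim: `v` is an eigenvector of each `L z`.
Suppose not. A matrix which commutes with `L a` and for which `v` is no eigenvector makes `L a` scalar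
(`L z v` is an eigenvector of `L a` for the same eigenvalue, independent of `v`), which contradicts the
noncommutation with `L b`; so `L z` does not commute with `L a`, `L b` and `L (a b)` (`L (a b)` is not scalar,
otherwise `L b` is a multiple of `(L a)⁻¹` and commutes with `L a`). By `exists_eigen`: `L a`, `L z` have a
common eigenvector `v₁`, `L b`, `L z` have `v₂`, and `L (a b)`, `L z` have `v₃`; none of them is a multiple of `v`.
`v₁`, `v₂` are independent (otherwise `L a`, `L b` are both diagonal in the basis `v, v₁` and commute). `L z` has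
exactly the eigenlines of `v₁` and `v₂` (otherwise it is scalar), so `v₃` is a multiple of `v₁` or of `v₂`. If of
`v₁`: `L b v₁` is a multiple of `v₁`, so `L b` has three eigenlines `v, v₁, v₂` and is scalar: contradiction. If of
`v₂`: `L a v₂` is a multiple of `v₂`, so `L a` is scalar: contradiction. -/
theorem exists_common_eigen {K : Type u} [Field K] {G : Type u} [Group G] (L : G →* GL (Fin 2) K)
    (h0 : ∀ a b : G, ((L a : Matrix (Fin 2) (Fin 2) K) * L b - L b * L a).det = 0) (a b : G)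
    (hab : (L a : Matrix (Fin 2) (Fin 2) K) * L b ≠ L b * L a) :
    ∃ v : Fin 2 → K, v ≠ 0 ∧ ∀ g, ∃ c : K, (L g : Matrix (Fin 2) (Fin 2) K) *ᵥ v = c • v := by
  obtain ⟨v, hv, ⟨α, hα⟩, ⟨β, hβ⟩⟩ := exists_eigen _ _ (h0 a b) hab
  refine ⟨v, hv, fun z => ?_⟩
  by_contra hz
  push Not at hz
  have hA : (L a : Matrix (Fin 2) (Fin 2) K) * L z ≠ L z * L a := by
    intro h
    have h1 := x05_sc _ _ v hv α hα hz h
    apply hab
    rw [h1, Matrix.smul_mul, Matrix.mul_smul, one_mul, mul_one]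
  have hB : (L b : Matrix (Fin 2) (Fin 2) K) * L z ≠ L z * L b := by
    intro h
    have h1 := x05_sc _ _ v hv β hβ hz h
    apply hab
    rw [h1, Matrix.smul_mul, Matrix.mul_smul, one_mul, mul_one]
  have hABv : (L (a * b) : Matrix (Fin 2) (Fin 2) K) *ᵥ v = (β * α) • v := by
    rw [map_mul, Units.val_mul, ← Matrix.mulVec_mulVec, hβ, Matrix.mulVec_smul, hα, smul_smul]
  have hAB : (L (a * b) : Matrix (Fin 2) (Fin 2) K) * L z ≠ L z * L (a * b) := by
    intro h
    have h1 := x05_sc _ _ v hv _ hABv hz h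
    rw [map_mul, Units.val_mul] at h1
    apply hab
    have h2 : (L a : Matrix (Fin 2) (Fin 2) K) * (L b * L a) = L a * (L a * L b) := by
      rw [← mul_assoc, h1, Matrix.smul_mul, Matrix.mul_smul, one_mul, mul_one]
    have h3 := congrArg (fun M => ((L a)⁻¹ : GL (Fin 2) K).val * M) h2
    simp only [← mul_assoc, ← Units.val_mul, inv_mul_cancel, one_mul] at h3
    rw [← Units.val_mul, ← Units.val_mul, h3]
  obtain ⟨v₁, hv₁, ⟨a₁, ha₁⟩, ⟨z₁, hz₁⟩⟩ := exists_eigen _ _ (h0 a z) hA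
  obtain ⟨v₂, hv₂, ⟨b₂, hb₂⟩, ⟨z₂, hz₂⟩⟩ := exists_eigen _ _ (h0 b z) hB
  obtain ⟨v₃, hv₃, ⟨c₃, hc₃⟩, ⟨z₃, hz₃⟩⟩ := exists_eigen _ _ (h0 (a * b) z) hAB
  have d1 := x05_ne _ v v₁ hv hv₁ z₁ hz₁ hz
  have d2 := x05_ne _ v v₂ hv hv₂ z₂ hz₂ hz
  have d12 : v₁ 0 * v₂ 1 - v₁ 1 * v₂ 0 ≠ 0 := by
    intro h
    obtain ⟨x, hx⟩ := x05_par v₁ v₂ hv₁ h
    have hx0 : x ≠ 0 := by
      rintro rfl
      apply hv₂
      rw [hx, zero_smul]
    have h2 : v₁ = x⁻¹ • v₂ := by rw [hx, smul_smul, inv_mul_cancel₀ hx0, one_smul]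
    apply hab
    refine x05_comm _ _ v v₁ d1 α a₁ β b₂ hα ha₁ hβ ?_
    rw [h2, Matrix.mulVec_smul, hb₂, smul_comm]
  have hz12 : z₁ ≠ z₂ := by
    rintro rfl
    have h := x05_scalar _ v₁ v₂ d12 z₁ hz₁ hz₂
    apply hz z₁
    rw [h, Matrix.smul_mulVec, Matrix.one_mulVec]
  obtain ⟨x, y, hxy⟩ := x05_decomp v₁ v₂ d12 v₃
  have h1 : (x * (z₁ - z₃)) • v₁ + (y * (z₂ - z₃)) • v₂ = 0 := by
    have h2 := hz₃
    rw [hxy, Matrix.mulVec_add, Matrix.mulVec_smul, Matrix.mulVec_smul, hz₁, hz₂] at h2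
    rw [← sub_eq_zero] at h2
    rw [← h2]
    module
  have hx : x * (z₁ - z₃) = 0 := by
    have e0 := congrFun h1 0
    have e1 := congrFun h1 1
    simp only [Pi.add_apply, Pi.smul_apply, smul_eq_mul, Pi.zero_apply] at e0 e1
    have : (x * (z₁ - z₃)) * (v₁ 0 * v₂ 1 - v₁ 1 * v₂ 0) = 0 := by
      linear_combination v₂ 1 * e0 - v₂ 0 * e1
    exact (mul_eq_zero.1 this).resolve_right d12
  have hy : y * (z₂ - z₃) = 0 := by
    have e0 := congrFun h1 0
    have e1 := congrFun h1 1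
    simp only [Pi.add_apply, Pi.smul_apply, smul_eq_mul, Pi.zero_apply] at e0 e1
    have : (y * (z₂ - z₃)) * (v₁ 0 * v₂ 1 - v₁ 1 * v₂ 0) = 0 := by
      linear_combination v₁ 0 * e1 - v₁ 1 * e0
    exact (mul_eq_zero.1 this).resolve_right d12
  rw [map_mul, Units.val_mul, ← Matrix.mulVec_mulVec] at hc₃
  rcases mul_eq_zero.1 hx with hx0 | hx0
  · -- `v₃ = y v₂`
    rw [hx0, zero_smul, zero_add] at hxy
    have hy0 : y ≠ 0 := by
      rintro rfl
      apply hv₃
      rw [hxy, zero_smul]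
    have hb0 := x05_gl _ v₂ hv₂ b₂ hb₂
    rw [hxy, Matrix.mulVec_smul, hb₂, Matrix.mulVec_smul, Matrix.mulVec_smul] at hc₃
    have h2 : (L a : Matrix (Fin 2) (Fin 2) K) *ᵥ v₂ = (b₂⁻¹ * (y⁻¹ * (c₃ * y))) • v₂ := by
      have h3 := congrArg (fun u => (b₂⁻¹ * y⁻¹) • u) hc₃
      simp only [smul_smul] at h3
      have e1 : b₂⁻¹ * y⁻¹ * (y * b₂) = 1 := by field_simp
      rw [e1, one_smul] at h3
      rw [h3, mul_assoc]
    exact hab (x05_comm _ _ v v₂ d2 α _ β b₂ hα h2 hβ hb₂)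
  · -- `z₁ = z₃`, so `v₃ = x v₁`
    have hy0 : y = 0 := by
      rcases mul_eq_zero.1 hy with h | h
      · exact h
      · exact absurd (by linear_combination hx0 - h) hz12
    rw [hy0, zero_smul, add_zero] at hxy
    have hx0 : x ≠ 0 := by
      rintro rfl
      apply hv₃
      rw [hxy, zero_smul]
    have ha0 := x05_gl _ v₁ hv₁ a₁ ha₁
    rw [hxy, Matrix.mulVec_smul, Matrix.mulVec_smul] at hc₃
    have h2 : (L a : Matrix (Fin 2) (Fin 2) K) *ᵥ ((L b : Matrix (Fin 2) (Fin 2) K) *ᵥ v₁) =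
        (x⁻¹ * (c₃ * x)) • v₁ := by
      have h3 := congrArg (fun u => x⁻¹ • u) hc₃
      simp only [smul_smul] at h3
      rw [inv_mul_cancel₀ hx0, one_smul] at h3
      exact h3
    have h4 := x05_inv _ v₁ _ a₁ _ ha0 ha₁ h2
    exact hab (x05_comm _ _ v v₁ d1 α a₁ β _ hα ha₁ hβ h4)

/-- **The trichotomy.**
Proof: if some commutator has nonzero determinant we are in the first case. Otherwise, if the image is not
commutative: `exists_common_eigen`. Let it be commutative. If some `L a` is without eigenvectors: third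
case. Otherwise, if all `L g` are scalar each vector is a common eigenvector; let `L a` be not scalar
with `L a v = c v`, `v ≠ 0`; the eigenspace for `c` is the line of `v`, stable under the commuting
matrices. -/
theorem trichotomy {K : Type u} [Field K] {G : Type u} [Group G] (L : G →* GL (Fin 2) K) :
    (∃ a b : G, ((L a : Matrix (Fin 2) (Fin 2) K) * L b - L b * L a).det ≠ 0) ∨
    (∃ v : Fin 2 → K, v ≠ 0 ∧ ∀ g, ∃ c : K, (L g : Matrix (Fin 2) (Fin 2) K) *ᵥ v = c • v) ∨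
    ((∀ a b : G, L a * L b = L b * L a) ∧ ∃ a : G, ∀ (v : Fin 2 → K) (c : K), v ≠ 0 →
      (L a : Matrix (Fin 2) (Fin 2) K) *ᵥ v ≠ c • v) := by
  by_cases h1 : ∃ a b : G, ((L a : Matrix (Fin 2) (Fin 2) K) * L b - L b * L a).det ≠ 0
  · exact Or.inl h1
  push Not at h1
  refine Or.inr ?_
  by_cases hcomm : ∀ a b : G, (L a : Matrix (Fin 2) (Fin 2) K) * L b = L b * L a
  swap
  · push Not at hcomm
    obtain ⟨a, b, hab⟩ := hcomm
    exact Or.inl (exists_common_eigen L h1 a b hab)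
  by_cases h3 : ∃ a : G, ∀ (v : Fin 2 → K) (c : K), v ≠ 0 →
      (L a : Matrix (Fin 2) (Fin 2) K) *ᵥ v ≠ c • v
  · refine Or.inr ⟨fun a b => ?_, h3⟩
    ext1
    rw [Units.val_mul, Units.val_mul]
    exact hcomm a b
  push Not at h3
  refine Or.inl ?_
  by_cases hs : ∀ g : G, ∃ c : K, (L g : Matrix (Fin 2) (Fin 2) K) = c • 1
  · refine ⟨fun _ => 1, ?_, fun g => ?_⟩
    · intro h
      have := congrFun h 0
      exact one_ne_zero this
    · obtain ⟨c, hc⟩ := hs g
      refine ⟨c, ?_⟩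
      rw [hc, Matrix.smul_mulVec, Matrix.one_mulVec]
  push Not at hs
  obtain ⟨a, ha⟩ := hs
  obtain ⟨v, c, hv, hc⟩ := h3 a
  refine ⟨v, hv, fun g => ?_⟩
  by_contra hg
  push Not at hg
  exact ha c (x05_sc _ _ v hv c hc hg (hcomm a g))

end Pool.Agent.Lib.MP_c052b4_al.CT
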