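import Pool.Agent.Lib.MP_c052b4_al.Mg.G066
import Pool.Agent.Lib.MP_c052b4_al.Mg.G056
import Pool.Agent.Lib.MP_c052b4_al.Mg.G001

/-!
# Coherent trees, Y02: the main theorem
-/

set_option autoImplicit false

namespace Pool.Agent.Lib.MP_c052b4_al.CT

open MvPolynomial MulAction
open Pool.Agent.Lib.MP_c052b4_al.JK
open Pool.Agent.Lib.MP_c052b4_al.LK

universe u

/-- Isomorphic groups. -/
theorem hb_of_mulEquiv {G H : Type u} [Group G] [Group H] (e : G ≃* H) (h : HB.{u} G) :
    HB.{u} H := by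
  refine ⟨fun R _ hR => ?_, fun R _ hR => (h.inj R hR).of_equiv e⟩
  rw [eq_top_iff]
  intro x _
  refine imA1_of_mulEquiv e (fun y => ?_) x
  rw [h.onto R hR]
  trivial

/-- Regular coherent, and all subgroups satisfy the conjecture. -/
def SemP (C : Type u) [Group C] : Prop :=
  RegCohGroup.{u} C ∧ ∀ (D : Type u) [Group D] (f : D →* C), Function.Injective f → HB.{u} D

theorem semP_herP : HerP fun (G : Type u) [Group G] => SemP G where
  sub f hf h := ⟨h.1.of_injective' f hf, fun D _ g hg => h.2 D (f.comp g) (hf.comp hg)⟩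
  coh h := h.1
  hb h := h.2 _ (MonoidHom.id _) Function.injective_id

/-- The ring embeds into a field with a rational place. -/
def PlaceRing (B : Type u) [CommRing B] : Prop :=
  ∃ (K : Type u) (_ : Field K) (φ : B →+* K), Function.Injective φ ∧ RatPlace K

/-- From the condition for all subgroups to the class. -/
theorem semP_of_forall {G : Type u} [Group G] (Q : Subgroup G → Prop)
    (hQ : ∀ C C', C' ≤ C → Q C → Q C')
    (h : ∀ C, Q C → RegCohGroup.{u} C ∧ HB.{u} C) (C : Subgroup G) (hC : Q C) : SemP C := by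
  refine ⟨(h C hC).1, fun D _ f hf => ?_⟩
  let C' : Subgroup G := (f.range).map C.subtype
  have h1 : C' ≤ C := by
    rintro _ ⟨x, -, rfl⟩
    exact x.2
  have h2 : HB.{u} C' := (h C' (hQ C C' h1 hC)).2
  let e : D ≃* C' := (MonoidHom.ofInjective hf).trans
    (f.range.equivMapOfInjective C.subtype C.subtype_injective)
  exact hb_of_mulEquiv e.symm h2

/-- **Theorem.** -/
theorem hb_main {G : Type u} [Group G] (hfg : Group.FG G) (htf : ∀ g : G, IsOfFinOrder g → g = 1)
    {n : ℕ} (V : Fin n → Type u) [act : ∀ i, MulAction G (V i)]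
    (T : ∀ i, Nonempty (TreeAction G (V i))) (B : Type u) [CommRing B] (r : G →* PAut B)
    (hC : ∀ C : Subgroup G, (∀ i, ∃ x : V i, ∀ g ∈ C, g • x = x) → (∀ g ∈ C, LocInt (r g)) →
      (RegCohGroup.{u} C ∧ HB.{u} C) ∨ (PlaceRing B ∧ ∀ g ∈ C, r g = 1 → g = 1)) :
    HB.{u} G := by
  by_cases hB : PlaceRing B
  · obtain ⟨K, _, φ, hφ, hK⟩ := hB
    let r' : G →* AutA K := (bc φ).comp r
    refine hb_of_trees_field semP_herP V T K r' fun C h1 h2 h3 => ?_
    refine semP_of_forall (fun C : Subgroup G => (∀ i, ∃ x : V i, ∀ g ∈ C, g • x = x) ∧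
      (∀ g ∈ C, LocInt (R := K) (r' g)) ∧ ∃ x : VT (AlgebraicClosure K), ∀ g ∈ C,
        (bc (algebraMap K (AlgebraicClosure K)) (r' g) : AutA (AlgebraicClosure K)) • x = x)
      ?_ ?_ C ⟨h1, h2, h3⟩
    · rintro C C' hCC ⟨h4, h5, h6⟩
      refine ⟨fun i => ?_, fun g hg => h5 g (hCC hg), ?_⟩
      · obtain ⟨x, hx⟩ := h4 i
        exact ⟨x, fun g hg => hx g (hCC hg)⟩
      · obtain ⟨x, hx⟩ := h6
        exact ⟨x, fun g hg => hx g (hCC hg)⟩
    · rintro C ⟨h4, h5, x, hx⟩
      rcases hC C h4 fun g hg => locInt_of_bc φ hφ (h5 g hg) with h6 | ⟨-, h6⟩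
      · exact h6
      · have h7 : Coh.{u} C := by
          refine coh_of_plane hK (fun c hc => Subtype.ext (htf c
            ((Submonoid.isOfFinOrder_coe (H := C.toSubmonoid)).2 hc))) (r'.comp C.subtype) ?_
            (fun c => h5 c c.2) x fun c => hx c c.2
          rw [injective_iff_map_eq_one]
          intro c hc
          have h8 : bc φ (r c) = bc φ 1 := by
            rw [map_one]
            exact hc
          exact Subtype.ext (h6 c c.2 (bc_injective φ hφ h8))
        exact ⟨h7.regCohGroup, wald_hb_hered h7.wald _ (MonoidHom.id _) Function.injective_id⟩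
  · refine hb_of_trees_paut semP_herP hfg V T B r fun C h1 h2 => ?_
    refine semP_of_forall (fun C : Subgroup G => (∀ i, ∃ x : V i, ∀ g ∈ C, g • x = x) ∧
      (∀ g ∈ C, LocInt (r g))) ?_ ?_ C ⟨h1, h2⟩
    · rintro C C' hCC ⟨h4, h5⟩
      refine ⟨fun i => ?_, fun g hg => h5 g (hCC hg)⟩
      obtain ⟨x, hx⟩ := h4 i
      exact ⟨x, fun g hg => hx g (hCC hg)⟩
    · rintro C ⟨h4, h5⟩
      exact (hC C h4 h5).resolve_right fun h6 => hB h6.1

end Pool.Agent.Lib.MP_c052b4_al.CT
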