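import Pool.Agent.Lib.MP_c052b4_al.Mg.G060

/-!
# Coherent trees, Z01: rational places of rational function fields
-/

set_option autoImplicit false
set_option linter.unusedVariables false
set_option linter.unusedSectionVars false

namespace Pool.Agent.Lib.MP_c052b4_al.CT

open Polynomial

universe u

/-- The rational numbers. Proof: the valuation subring `⊤`. -/
theorem ratPlace_rat : RatPlace ℚ :=
  ⟨⊤, ⟨(⊤ : ValuationSubring ℚ).subtype⟩⟩

section ratFunc

variable {K : Type u} [Field K]

/-- `v` is the value of the rational function `f` at `0`. -/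
private def z01_val (f : RatFunc K) (v : K) : Prop :=
  ∃ p q : K[X], f * algebraMap K[X] (RatFunc K) q = algebraMap K[X] (RatFunc K) p ∧
    q.eval 0 ≠ 0 ∧ p.eval 0 = v * q.eval 0

private theorem z01_unique {f : RatFunc K} {v w : K} (h : z01_val f v) (h' : z01_val f w) : v = w := by
  obtain ⟨p, q, e, hq, hv⟩ := h
  obtain ⟨p', q', e', hq', hv'⟩ := h'
  have h1 : algebraMap K[X] (RatFunc K) (p * q') = algebraMap K[X] (RatFunc K) (p' * q) := by
    rw [map_mul, map_mul, ← e, ← e']
    ring
  have h2 : p * q' = p' * q := RatFunc.algebraMap_injective K h1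
  have h3 := congrArg (Polynomial.eval 0) h2
  rw [eval_mul, eval_mul, hv, hv'] at h3
  have h4 : (v - w) * (q.eval 0 * q'.eval 0) = 0 := by linear_combination h3
  rcases mul_eq_zero.1 h4 with h5 | h5
  · exact sub_eq_zero.1 h5
  · exact absurd h5 (mul_ne_zero hq hq')

private theorem z01_C (c : K) : z01_val (algebraMap K[X] (RatFunc K) (C c)) c :=
  ⟨C c, 1, by simp, by simp, by simp⟩

private theorem z01_add {f g : RatFunc K} {v w : K} (h : z01_val f v) (h' : z01_val g w) :
    z01_val (f + g) (v + w) := by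
  obtain ⟨p, q, e, hq, hv⟩ := h
  obtain ⟨p', q', e', hq', hv'⟩ := h'
  refine ⟨p * q' + p' * q, q * q', ?_, ?_, ?_⟩
  · rw [map_add, map_mul, map_mul, map_mul, ← e, ← e']
    ring
  · rw [eval_mul]
    exact mul_ne_zero hq hq'
  · rw [eval_add, eval_mul, eval_mul, eval_mul, hv, hv']
    ring

private theorem z01_mul {f g : RatFunc K} {v w : K} (h : z01_val f v) (h' : z01_val g w) :
    z01_val (f * g) (v * w) := by
  obtain ⟨p, q, e, hq, hv⟩ := h
  obtain ⟨p', q', e', hq', hv'⟩ := h'
  refine ⟨p * p', q * q', ?_, ?_, ?_⟩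
  · rw [map_mul, map_mul, ← e, ← e']
    ring
  · rw [eval_mul]
    exact mul_ne_zero hq hq'
  · rw [eval_mul, eval_mul, hv, hv']
    ring

private theorem z01_zero : z01_val (0 : RatFunc K) 0 := by
  have h := z01_C (0 : K)
  rwa [C_0, map_zero] at h

private theorem z01_one : z01_val (1 : RatFunc K) 1 := by
  have h := z01_C (1 : K)
  rwa [C_1, map_one] at h

private theorem z01_neg {f : RatFunc K} {v : K} (h : z01_val f v) : z01_val (-f) (-v) := by
  obtain ⟨p, q, e, hq, hv⟩ := h
  exact ⟨-p, q, by rw [map_neg, ← e]; ring, hq, by rw [eval_neg, hv]; ring⟩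

private theorem z01_inv {f : RatFunc K} {v : K} (h : z01_val f v) (hv : v ≠ 0) :
    z01_val f⁻¹ v⁻¹ := by
  obtain ⟨p, q, e, hq, hpv⟩ := h
  have hf : f ≠ 0 := by
    rintro rfl
    rw [zero_mul] at e
    have h0 : p = 0 := RatFunc.algebraMap_injective K (by rw [← e, map_zero])
    rw [h0, eval_zero] at hpv
    rcases mul_eq_zero.1 hpv.symm with h1 | h1
    · exact hv h1
    · exact hq h1
  refine ⟨q, p, ?_, ?_, ?_⟩
  · rw [← e, inv_mul_cancel_left₀ hf]
  · rw [hpv]
    exact mul_ne_zero hv hq
  · rw [hpv, inv_mul_cancel_left₀ hv]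

/-- the value exists, or the inverse has value `0` -/
private theorem z01_total (f : RatFunc K) : (∃ v, z01_val f v) ∨ z01_val f⁻¹ 0 := by
  by_cases hd : f.denom.eval 0 = 0
  · right
    have hn : f.num.eval 0 ≠ 0 := by
      intro hn
      obtain ⟨a, b, hab⟩ := RatFunc.isCoprime_num_denom f
      have h1 := congrArg (Polynomial.eval 0) hab
      rw [eval_add, eval_mul, eval_mul, hn, hd, mul_zero, mul_zero, add_zero, eval_one] at h1
      exact zero_ne_one h1
    have hn0 : algebraMap K[X] (RatFunc K) f.num ≠ 0 := by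
      intro h0
      have h1 : f.num = 0 := RatFunc.algebraMap_injective K (by rw [h0, map_zero])
      rw [h1, eval_zero] at hn
      exact hn rfl
    refine ⟨f.denom, f.num, ?_, hn, by rw [hd, zero_mul]⟩
    conv_lhs => rw [← RatFunc.num_div_denom f, RatFunc.num_div_denom f]
    have h2 := RatFunc.num_div_denom f
    have h3 : f⁻¹ = algebraMap K[X] (RatFunc K) f.denom / algebraMap K[X] (RatFunc K) f.num := by
      conv_lhs => rw [← h2]
      rw [inv_div]
    rw [h3, div_mul_cancel₀ _ hn0]
  · left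
    have hd0 : algebraMap K[X] (RatFunc K) f.denom ≠ 0 := by
      intro h0
      have h1 : f.denom = 0 := RatFunc.algebraMap_injective K (by rw [h0, map_zero])
      rw [h1, eval_zero] at hd
      exact hd rfl
    refine ⟨f.num.eval 0 / f.denom.eval 0, f.num, f.denom, ?_, hd, ?_⟩
    · rw [← div_eq_iff hd0 |>.1 (RatFunc.num_div_denom f)]
    · rw [div_mul_cancel₀ _ hd]

end ratFunc

/-- **Rational function fields.**
Proof: let `O`, `π` be a place of `K` (for instance a local one, `exists_local_place`). The valuation ring of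
`RatFunc K` consists of the `f = p / q` with `q(0) ≠ 0` and `p(0) / q(0) ∈ O` (`f.num`, `f.denom`,
`IsCoprime`; or: all `f` such that there are `p`, `q` with `f * q = p`, `q.eval 0 ≠ 0`,
`p.eval 0 / q.eval 0 ∈ O`), with the homomorphism `f ↦ π (p(0) / q(0))`. For each `f ≠ 0`: if `X` divides
neither numerator nor denominator (in lowest terms) then `f(0) = p(0)/q(0)` or its inverse is in `O`; if `X`
divides the numerator `f(0) = 0 ∈ O`; if it divides the denominator `f⁻¹(0) = 0`. -/
theorem ratPlace_ratFunc (K : Type u) [Field K] (h : RatPlace K) : RatPlace (RatFunc K) := by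
  obtain ⟨O, ⟨π⟩⟩ := h
  let O' : ValuationSubring (RatFunc K) :=
    { carrier := {f | ∃ v : O, z01_val f (v : K)}
      mul_mem' := by
        rintro f g ⟨v, hv⟩ ⟨w, hw⟩
        exact ⟨v * w, z01_mul hv hw⟩
      one_mem' := ⟨1, z01_one⟩
      add_mem' := by
        rintro f g ⟨v, hv⟩ ⟨w, hw⟩
        exact ⟨v + w, z01_add hv hw⟩
      zero_mem' := ⟨0, z01_zero⟩
      neg_mem' := by
        rintro f ⟨v, hv⟩
        exact ⟨-v, z01_neg hv⟩
      mem_or_inv_mem' := by
        intro f
        rcases z01_total f with ⟨v, hv⟩ | h0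
        · rcases O.mem_or_inv_mem v with h1 | h1
          · exact Or.inl ⟨⟨v, h1⟩, hv⟩
          · by_cases hv0 : v = 0
            · rw [hv0] at hv
              exact Or.inl ⟨0, hv⟩
            · exact Or.inr ⟨⟨v⁻¹, h1⟩, z01_inv hv hv0⟩
        · exact Or.inr ⟨0, h0⟩ }
  have key : ∀ f : O', ∃ v : O, z01_val (f : RatFunc K) (v : K) := fun f => f.2
  choose φ hφ using key
  have huniq : ∀ (f : O') (v : O), z01_val (f : RatFunc K) (v : K) → φ f = v := fun f v hv =>
    Subtype.ext (z01_unique (hφ f) hv)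
  let Φ : O' →+* O :=
    { toFun := φ
      map_one' := huniq _ _ z01_one
      map_mul' := fun f g => huniq _ _ (z01_mul (hφ f) (hφ g))
      map_zero' := huniq _ _ z01_zero
      map_add' := fun f g => huniq _ _ (z01_add (hφ f) (hφ g)) }
  exact ⟨O', ⟨π.comp Φ⟩⟩

/-- A place restricts to subfields: `O.comap φ` (`ValuationSubring.comap`) and the composition. -/
theorem RatPlace.of_hom {K K' : Type u} [Field K] [Field K'] (φ : K' →+* K) (h : RatPlace K) :
    RatPlace K' := by
  obtain ⟨O, ⟨π⟩⟩ := h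
  let Φ : (O.comap φ) →+* O :=
    { toFun := fun x => ⟨φ x, x.2⟩
      map_one' := Subtype.ext (map_one φ)
      map_mul' := fun x y => Subtype.ext (map_mul φ _ _)
      map_zero' := Subtype.ext (map_zero φ)
      map_add' := fun x y => Subtype.ext (map_add φ _ _) }
  exact ⟨O.comap φ, ⟨π.comp Φ⟩⟩

/-- **The fields `ℚ(t₁, …, t_n)`.**
Proof: induction on `n`: `MvPolynomial (Fin (n + 1)) ℚ ≃ₐ (MvPolynomial (Fin n) ℚ)[X]`
(`MvPolynomial.finSuccEquiv`) embeds into `RatFunc (FractionRing (MvPolynomial (Fin n) ℚ))`, so the fraction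
field embeds (`IsFractionRing.lift` / `IsFractionRing.map`), `RatPlace.of_hom`, `ratPlace_ratFunc`. For `n = 0`:
`MvPolynomial (Fin 0) ℚ ≃ₐ ℚ` (`MvPolynomial.isEmptyAlgEquiv`). -/
theorem ratPlace_mvPolynomial (n : ℕ) : RatPlace (FractionRing (MvPolynomial (Fin n) ℚ)) := by
  induction n with
  | zero =>
    have hinj : Function.Injective
        ((MvPolynomial.isEmptyAlgEquiv ℚ (Fin 0)).toRingEquiv : MvPolynomial (Fin 0) ℚ →+* ℚ) :=
      (MvPolynomial.isEmptyAlgEquiv ℚ (Fin 0)).injective
    exact RatPlace.of_hom (IsFractionRing.lift hinj) ratPlace_rat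
  | succ n ih =>
    let e : MvPolynomial (Fin (n + 1)) ℚ →+* RatFunc (FractionRing (MvPolynomial (Fin n) ℚ)) :=
      ((algebraMap (FractionRing (MvPolynomial (Fin n) ℚ))[X]
        (RatFunc (FractionRing (MvPolynomial (Fin n) ℚ)))).comp
        (Polynomial.mapRingHom (algebraMap (MvPolynomial (Fin n) ℚ)
          (FractionRing (MvPolynomial (Fin n) ℚ))))).comp
        ((MvPolynomial.finSuccEquiv ℚ n).toRingEquiv : MvPolynomial (Fin (n + 1)) ℚ →+* _)
    have hinj : Function.Injective e :=
      ((RatFunc.algebraMap_injective _).comp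
        (Polynomial.map_injective _ (IsFractionRing.injective _ _))).comp
        (MvPolynomial.finSuccEquiv ℚ n).injective
    exact RatPlace.of_hom (IsFractionRing.lift hinj) (ratPlace_ratFunc _ ih)

end Pool.Agent.Lib.MP_c052b4_al.CT
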