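import Pool.Agent.Lib.MP_c052b4_al.CT.Y02
import Pool.Agent.Lib.MP_c052b4_al.CT.Z01

/-!
# Coherent trees, Y03: special cases of the main theorem
-/

set_option autoImplicit false

namespace Pool.Agent.Lib.MP_c052b4_al.CT

open MvPolynomial MulAction
open Pool.Agent.Lib.MP_c052b4_al.JK
open Pool.Agent.Lib.MP_c052b4_al.LK

universe u

/-- Positive characteristic: products of trees and a plane, with trivial joint stabilizers. -/
theorem hb_of_positive {G : Type u} [Group G] (hfg : Group.FG G)
    (htf : ∀ g : G, IsOfFinOrder g → g = 1)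
    {n : ℕ} (V : Fin n → Type u) [act : ∀ i, MulAction G (V i)]
    (T : ∀ i, Nonempty (TreeAction G (V i))) (A : Type u) [CommRing A] (N : ℕ) (hN : 0 < N)
    (hA : (N : A) = 0) (r : G →* PAut A)
    (h : ∀ g : G, r g = 1 → (∀ i, ∃ x : V i, g • x = x) → g = 1) : HB.{u} G := by
  refine hb_main hfg htf V T A r fun C h1 h2 => Or.inl ?_
  have h3 : ∀ c : C, c = 1 := by
    rintro ⟨c, hc⟩
    obtain ⟨k, hk, h4⟩ := isOfFinOrder_iff_pow_eq_one.1 (finOrder_of_locInt N hN hA (h2 c hc))
    apply Subtype.ext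
    refine htf c (isOfFinOrder_iff_pow_eq_one.2 ⟨k, hk, h _ ?_ fun i => ?_⟩)
    · rw [map_pow, h4]
    · obtain ⟨x, hx⟩ := h1 i
      exact ⟨x, hx _ (C.pow_mem hc k)⟩
  have : Subsingleton C := ⟨fun a b => (h3 a).trans (h3 b).symm⟩
  exact ⟨fun R _ hR => regCoh_of_subsingleton hR, HB.of_subsingleton C⟩

/-- Trees with regular coherent stabilizers satisfying the conjecture. -/
theorem hb_of_trees_coherent {G : Type u} [Group G] (hfg : Group.FG G)
    (htf : ∀ g : G, IsOfFinOrder g → g = 1)
    {n : ℕ} (V : Fin n → Type u) [act : ∀ i, MulAction G (V i)]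
    (T : ∀ i, Nonempty (TreeAction G (V i)))
    (h : ∀ C : Subgroup G, (∀ i, ∃ x : V i, ∀ g ∈ C, g • x = x) → RegCohGroup.{u} C ∧ HB.{u} C) :
    HB.{u} G :=
  hb_main hfg htf V T (ULift.{u} ℤ) 1 fun C h1 _ => Or.inl (h C h1)

/-- **Torsionfree groups of automorphisms of the plane over a field with a rational place.** -/
theorem hb_of_place {G : Type u} [Group G] (htf : ∀ g : G, IsOfFinOrder g → g = 1)
    (K : Type u) [Field K] (hK : RatPlace K) (r : G →* AutA K) (hr : Function.Injective r) :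
    HB.{u} G := by
  refine HB.of_fg fun H hH => ?_
  refine hb_main (n := 0) ((Group.fg_iff_subgroup_fg H).2 hH)
    (fun g hg => Subtype.ext (htf g ((Submonoid.isOfFinOrder_coe (H := H.toSubmonoid)).2 hg)))
    (fun _ => PUnit) (act := fun i => i.elim0) (fun i => i.elim0) K (r.comp H.subtype)
    fun C _ _ => Or.inr ⟨⟨K, inferInstance, RingHom.id K, Function.injective_id, hK⟩, ?_⟩
  intro g _ hg
  exact Subtype.ext (hr (hg.trans (map_one r).symm))

/-- **Torsionfree groups of automorphisms of the plane over `ℚ(t₁, …, t_n)`.** -/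
theorem hb_rational {G : Type} [Group G] (htf : ∀ g : G, IsOfFinOrder g → g = 1) (n : ℕ)
    (r : G →* AutA (FractionRing (MvPolynomial (Fin n) ℚ))) (hr : Function.Injective r) :
    HB.{0} G :=
  hb_of_place htf _ (ratPlace_mvPolynomial n) r hr

end Pool.Agent.Lib.MP_c052b4_al.CT
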